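import Pool.Agent.T9h10.LB.Fin
import Pool.Agent.T9h10.FT.Use

/-! The inequality of the certificate for the missing triples. -/

set_option autoImplicit false
set_option maxRecDepth 100000
set_option maxHeartbeats 4000000
open Finset

namespace Pool.Agent.T9h10.LB
open Pool.Agent.H122R2.N6 Pool.Agent.H37R3.Pen Pool.Agent.H37R3.K5 Pool.Agent.Y580.FL Pool.Agent.T9h10.FC

variable {V : Type} [Fintype V] {E : V → V → V → ℕ}

theorem rel5 (hE : Sy E) : Pool.Agent.T9h10.FT.Rel5 E zb mu 1421118778900480 (1048576 * 1) 8349179 := by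
  intro a b c d e
  have h1 := (B2_true (B2_true (B2_true (B2_true (B2_true (B2_true (B2_true (B2_true (B2_true (B2_true rel_true (hE.b a b c)) (hE.b a b d)) (hE.b a c d)) (hE.b b c d)) (hE.b a b e)) (hE.b a c e)) (hE.b b c e)) (hE.b a d e)) (hE.b b d e)) (hE.b c d e))
  simp only [Bool.and_eq_true] at h1
  obtain ⟨hz, m0, m1, m2, m3, m4, m5, m6, m7, m8, m9⟩ := h1
  exact ⟨Nat.eq_of_beq_eq_true hz, Nat.le_of_ble_eq_true m0, Nat.le_of_ble_eq_true m1, Nat.le_of_ble_eq_true m2, Nat.le_of_ble_eq_true m3, Nat.le_of_ble_eq_true m4, Nat.le_of_ble_eq_true m5, Nat.le_of_ble_eq_true m6, Nat.le_of_ble_eq_true m7, Nat.le_of_ble_eq_true m8, Nat.le_of_ble_eq_true m9⟩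

/-- the inequality for the missing triples -/
theorem ineq (hE : Sy E) (hK : Pool.Agent.T9h10.FT.NoK4 E) :
    148434069749760 * (Fintype.card V : ℤ) ^ 3 * (∑ a, ∑ b, ∑ c, (E a b c : ℤ)) ≤
      82463372083200 * (Fintype.card V : ℤ) ^ 6 +
        525284923146240 * ((Fintype.card V : ℤ) ^ 2 *
          ∑ x, ∑ y, ∑ z, (Pool.Agent.T9h10.FT.ex E fh 1 1 x y z : ℤ)) := by
  have h := main hE hK
  have h2 := Pool.Agent.T9h10.FT.sum_S5_le E (kt := kt) (fh := fh) (U := 1048576) (p := 1) (q := 1)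
    (rel5 hE) (fun g t => rfl)
  push_cast at h2
  linarith

end Pool.Agent.T9h10.LB
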