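import Pool.Agent.T9h10.LB.Tab
import Pool.Agent.T9h10.FT.Pen

set_option autoImplicit false
set_option maxRecDepth 100000

namespace Pool.Agent.T9h10.LB

open Pool.Agent.H122R2.N6 Pool.Agent.T9h10.FC Pool.Agent.T9h10.FT


/-- relations between the tables -/
def rel : Bool := B2 fun b012 => B2 fun b013 => B2 fun b023 => B2 fun b123 => B2 fun b014 => B2 fun b024 => B2 fun b124 => B2 fun b034 => B2 fun b134 => B2 fun b234 => and (Nat.beq (Nat.add (zb (cd10 b012 b013 b023 b123 b014 b024 b124 b034 b134 b234)) (Nat.mul 1048576 (Nat.add (mu (cd10 b012 b013 b023 b123 b014 b024 b124 b034 b134 b234) 0) (Nat.add (mu (cd10 b012 b013 b023 b123 b014 b024 b124 b034 b134 b234) 1) (Nat.add (mu (cd10 b012 b013 b023 b123 b014 b024 b124 b034 b134 b234) 2) (Nat.add (mu (cd10 b012 b013 b023 b123 b014 b024 b124 b034 b134 b234) 3) (Nat.add (mu (cd10 b012 b013 b023 b123 b014 b024 b124 b034 b134 b234) 4) (Nat.add (mu (cd10 b012 b013 b023 b123 b014 b024 b124 b034 b134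 b234) 5) (Nat.add (mu (cd10 b012 b013 b023 b123 b014 b024 b124 b034 b134 b234) 6) (Nat.add (mu (cd10 b012 b013 b023 b123 b014 b024 b124 b034 b134 b234) 7) (Nat.add (mu (cd10 b012 b013 b023 b123 b014 b024 b124 b034 b134 b234) 8) (mu (cd10 b012 b013 b023 b123 b014 b024 b124 b034 b134 b234) 9)))))))))))) 1421118778900480) (and (Nat.ble (mu (cd10 b012 b013 b023 b123 b014 b024 b124 b034 b134 b234) 0) (Nat.mul 8349179 (Nat.sub 1 b012))) (and (Nat.ble (mu (cd10 b012 b013 b023 b123 b014 b024 b124 b034 b134 b234) 1) (Nat.mul 8349179 (Nat.sub 1 b013))) (and (Nat.ble (mu (cd10 b012 b013 b023 b123 b014 b024 b124 b034 b134 b234) 2) (Nat.mul 8349179 (Nat.sub 1 b023))) (and (Nat.ble (mu (cd10 b012 b013 b023 b123 b014 b024 b124 b034 b134 b234) 3) (Nat.mul 8349179 (Nat.sub 1 b123))) (and (Nat.ble (mu (cd10 b012 b013 b023 b123 b014 b024 b124 b034 b134 b234) 4) (Nat.mul 8349179 (Nat.sub 1 b014))) (and (Nat.ble (mu (cd10 b012 b013 b023 b123 b014 b024 b124 b034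 b134 b234) 5) (Nat.mul 8349179 (Nat.sub 1 b024))) (and (Nat.ble (mu (cd10 b012 b013 b023 b123 b014 b024 b124 b034 b134 b234) 6) (Nat.mul 8349179 (Nat.sub 1 b124))) (and (Nat.ble (mu (cd10 b012 b013 b023 b123 b014 b024 b124 b034 b134 b234) 7) (Nat.mul 8349179 (Nat.sub 1 b034))) (and (Nat.ble (mu (cd10 b012 b013 b023 b123 b014 b024 b124 b034 b134 b234) 8) (Nat.mul 8349179 (Nat.sub 1 b134))) (Nat.ble (mu (cd10 b012 b013 b023 b123 b014 b024 b124 b034 b134 b234) 9) (Nat.mul 8349179 (Nat.sub 1 b234))))))))))))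

theorem rel_true : rel = true := by decide +kernel
theorem cy0 : Pool.Agent.T9h10.FT.symP0 zb kt = true := by decide +kernel
theorem cy1 : Pool.Agent.T9h10.FT.symP1 zb kt = true := by decide +kernel
theorem cy2 : Pool.Agent.T9h10.FT.symP2 zb kt = true := by decide +kernel
theorem cy3 : Pool.Agent.T9h10.FT.symP3 zb kt = true := by decide +kernel

end Pool.Agent.T9h10.LB
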