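import Pool.Agent.T9h10.LB.Part00
import Pool.Agent.T9h10.LB.Part01
import Pool.Agent.T9h10.LB.Part10
import Pool.Agent.T9h10.LB.Part11
import Pool.Agent.T9h10.LB.Psd
import Pool.Agent.T9h10.LB.Rel

set_option autoImplicit false
set_option maxRecDepth 100000
set_option maxHeartbeats 4000000
open Finset

namespace Pool.Agent.T9h10.LB
open Pool.Agent.H122R2.N6 Pool.Agent.H37R3.Pen Pool.Agent.H37R3.K5 Pool.Agent.Y580.FL Pool.Agent.T9h10.FC Pool.Agent.T9h10.FT

theorem hc (b012 b013 b023 b123 b014 b024 b124 b034 b134 b234 : ℕ) (hb012 : Bt b012) (hb013 : Bt b013) (hb023 : Bt b023) (hb123 : Bt b123) (hb014 : Bt b014) (hb024 : Bt b024) (hb124 : Bt b124) (hb034 : Bt b034) (hb134 : Bt b134) (hb234 : Bt b234) (ht : tg5 b012 b013 b023 b123 b014 b024 b124 b034 b134 b234 = 4) :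
    chkZ q4 q2 (Pool.Agent.T9h10.FT.ZQ zb kt fh) b012 b013 b023 b123 b014 b024 b124 b034 b134 b234 = true := by
  have h : part b012 b013 = true := by
    rcases hb012 with rfl | rfl <;> rcases hb013 with rfl | rfl
    exacts [part00, part01, part10, part11]
  have h2 := (B2_true (B2_true (B2_true (B2_true (B2_true (B2_true (B2_true (B2_true h hb023) hb123) hb014) hb024) hb124) hb034) hb134) hb234)
  refine or_false_left h2 ?_
  rw [ht]
  rfl

theorem rng : (nall 16 fun c => and (Nat.blt (rho c) 5) (nall 64 fun i => Nat.blt (pc c i) 64)) = true := by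
  decide +kernel

theorem rho_lt {c : ℕ} (h : c < 16) : rho c < 5 := by
  have := nall_true rng c h
  rw [Bool.and_eq_true] at this
  exact Nat.le_of_ble_eq_true this.1

theorem pc_lt {c i : ℕ} (h : c < 16) (hi : i < 64) : pc c i < 64 := by
  have := nall_true rng c h
  rw [Bool.and_eq_true] at this
  exact Nat.le_of_ble_eq_true (nall_true this.2 i hi)

theorem g4_all {r i j : ℕ} (hr : r < 5) (hi : i < 64) (hj : j < 64) : g4 r i j = true := by
  have h : chk4 r = true := by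
    interval_cases r
    exacts [cp0, cp1, cp2, cp3, cp4]
  exact nall_true (nall_true h i hi) j hj

theorem hq4 (c i j : ℕ) (hc : c < 16) (hi : i < 64) (hj : j < 64) : (q4 c i j : ℤ) =
    ∑ k ∈ range 78, (w4 (rho c) k : ℤ) * ((l4 (rho c) (pc c i) k : ℤ) - 4096) *
      ((l4 (rho c) (pc c j) k : ℤ) - 4096) + (140737488355328 + 0) := by
  have h := Nat.eq_of_beq_eq_true (g4_all (rho_lt hc) (pc_lt hc hi) (pc_lt hc hj))
  unfold ll sw sl at h
  rw [nsum_eq, nsum_eq, nsum_eq, nsum_eq] at h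
  have h2 := congrArg (fun n : ℕ => (n : ℤ)) h
  simp only [Nat.add_eq, Nat.mul_eq] at h2
  push_cast at h2
  rw [expand (range 78) (fun k => w4 (rho c) k) (fun k => l4 (rho c) (pc c i) k)
    (fun k => l4 (rho c) (pc c j) k) 4096]
  have h3 : (q4 c i j : ℤ) = (tq (rho c) (pc c i) (pc c j) : ℤ) := rfl
  rw [h3]
  linarith

theorem hq2 (i j : ℕ) (hi : i < 16) (hj : j < 16) : (q2 i j : ℤ) =
    ∑ k ∈ range 8, (w2 k : ℤ) * ((l2 i k : ℤ) - 4096) * ((l2 j k : ℤ) - 4096)
      + (140737488355328 + (ct (kk i j) : ℤ)) := by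
  have h := Nat.eq_of_beq_eq_true (nall_true (nall_true cpb i hi) j hj)
  unfold ll2 sw2 sl2 at h
  rw [nsum_eq, nsum_eq, nsum_eq, nsum_eq] at h
  have h2 := congrArg (fun n : ℕ => (n : ℤ)) h
  simp only [Nat.add_eq, Nat.mul_eq] at h2
  push_cast at h2
  rw [expand (range 8) (fun k => w2 k) (fun k => l2 i k) (fun k => l2 j k) 4096]
  linarith

/-- the inequality of the certificate -/
theorem main {V : Type} [Fintype V] {E : V → V → V → ℕ} (hE : Sy E) (hK : Pool.Agent.T9h10.FT.NoK4 E) :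
    45 * (4 * 824633720832 * (Fintype.card V : ℤ) ^ 3 * ∑ a, ∑ b, ∑ c, (E a b c : ℤ)) +
      8444249301319680 * (Fintype.card V : ℤ) ^ 6
      ≤ 6 * ∑ a, ∑ b, ∑ c, ∑ d, ∑ e, (Pool.Agent.T9h10.FT.S5 E zb kt fh a b c d e : ℤ) := by
  have hb := boundY E hE 78 8 (ZE E (Pool.Agent.T9h10.FT.ZP zb kt fh)) q4
    (fun c k => w4 (rho c) k) (fun c i k => l4 (rho c) (pc c i) k)
    q2 w2 l2 4096 140737488355328 140737488355328 (fun _ => 0) (fun k => (ct k : ℤ)) hq4 hq2
    (Pool.Agent.T9h10.FT.leafQ hE hK cy0 cy1 cy2 cy3 cs4 cs2 hc)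
  have h0 : Sv E (fun _ => 0) = 0 := by unfold Sv; simp
  have h1 : Pool.Agent.H122R2.N6.T2 E (fun k => (ct k : ℤ)) =
      4 * 824633720832 * (Fintype.card V : ℤ) ^ 3 * ∑ a, ∑ b, ∑ c, (E a b c : ℤ) := by
    rw [← T2_lin E hE 824633720832]
    unfold Pool.Agent.H122R2.N6.T2 ct
    simp only [Nat.mul_eq]
    push_cast
    rfl
  rw [h0, h1, Pool.Agent.T9h10.FT.sum_ZE E hE] at hb
  linarith

end Pool.Agent.T9h10.LB
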